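import Pool.Agent.Q16.SQ.Answer

/-!
# Square-only triangles: the complete answer

A triangle is square-only if and only if it is scalene, it is not a right triangle with rational ratio
of the legs whose hypotenuse is incommensurable with the legs, it is not the triangle with angles
`π / 6`, `π / 3`, `π / 2`, and it is not similar to a triangle of one of six explicit arithmetic
families of triangles with integer sides.
-/

set_option autoImplicit false
noncomputable section

namespace Pool.Agent.Results.MP_a03157_co.CompleteAnswer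

/-- The Euclidean plane. -/
abbrev Plane := EuclideanSpace ℝ (Fin 2)

/-- The closed triangle with vertices `v 0`, `v 1`, `v 2`. -/
def Tri (v : Fin 3 → Plane) : Set Plane := convexHull ℝ (Set.range v)

/-- `T` can be cut into `N` congruent (reflections allowed) non-degenerate triangles with pairwise
disjoint interiors. -/
def CanCut (T : Fin 3 → Plane) (N : ℕ) : Prop :=
  ∃ P : Fin N → Fin 3 → Plane,
    (∀ i, AffineIndependent ℝ (P i)) ∧
    (∀ i j, ∃ f : Plane ≃ᵢ Plane, f '' Tri (P i) = Tri (P j)) ∧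
    (⋃ i, Tri (P i)) = Tri T ∧
    (∀ i j, i ≠ j → Disjoint (interior (Tri (P i))) (interior (Tri (P j))))

/-- `T` is square-only. -/
def SquareOnly (T : Fin 3 → Plane) : Prop :=
  ∀ N : ℕ, 1 ≤ N → CanCut T N → IsSquare N

/-- The length of the side opposite to the vertex `i`. -/
def side (T : Fin 3 → Plane) (i : Fin 3) : ℝ := dist (T (i + 1)) (T (i + 2))

/-- The angle at the vertex `i`. -/
def angle (T : Fin 3 → Plane) (i : Fin 3) : ℝ :=
  EuclideanGeometry.angle (T (i + 1)) (T i) (T (i + 2))

/-- The six arithmetic families of triples of integer side lengths. -/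
def Family (x y z : ℕ) : Prop :=
  ∃ a b c : ℕ, 0 < a ∧ 0 < b ∧ 0 < c ∧
    ((a ^ 2 + b * c = c ^ 2 ∧
        ((x = a * (b + c) ∧ y = c ^ 2 ∧ z = b * c ∧ ¬ IsSquare (c * (b + c))) ∨
         (x = c * (b + c) ∧ y = b * (b + 2 * c) ∧ z = c ^ 2 ∧
            ¬ IsSquare ((b + c) * (b + 2 * c))))) ∨
      (c ^ 2 = a ^ 2 + a * b + b ^ 2 ∧
        ((x = 3 * a * (a + b) ∧ y = (2 * a + b) * c ∧ z = c ^ 2 ∧
            ¬ IsSquare (3 * (a + b) * (2 * a + b))) ∨
         (x = a + b ∧ y = c ∧ z = b ∧ ¬ IsSquare (a * (a + b))) ∨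
         (x = (a + b) * c ∧ y = b * (2 * a + b) ∧ z = a * c ∧
            ¬ IsSquare ((a + b) * (2 * a + b))) ∨
         (x = a * (a + 2 * b) ∧ y = c ^ 2 ∧ z = b * (2 * a + b) ∧
            ¬ IsSquare ((a + 2 * b) * (2 * a + b))))))

/-- A triangle `T` is square-only if and only if
(1) it is scalene,
(2) it is not a right triangle with rational ratio of the legs and irrational ratio of the hypotenuse
to a leg,
(3) it does not have the angles `π / 6`, `π / 3` (and `π / 2`), and
(4) its sides are not proportional to a triple of the six families. -/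
theorem result (T : Fin 3 → Plane) (hT : AffineIndependent ℝ T) :
    SquareOnly T ↔
      (∀ i j, i ≠ j → side T i ≠ side T j) ∧
      (¬ ∃ i j k : Fin 3, i ≠ j ∧ j ≠ k ∧ i ≠ k ∧ angle T i = Real.pi / 2 ∧
        (∃ q : ℚ, side T j = q * side T k) ∧ Irrational (side T i / side T j)) ∧
      (¬ ∃ i j : Fin 3, angle T i = Real.pi / 6 ∧ angle T j = Real.pi / 3) ∧
      (¬ ∃ i j k : Fin 3, i ≠ j ∧ j ≠ k ∧ i ≠ k ∧ ∃ x y z : ℕ, Family x y z ∧
        ∃ r : ℝ, 0 < r ∧ side T i = r * x ∧ side T j = r * y ∧ side T k = r * z) := by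
  have h := Q16.SQ.answer T hT
  constructor
  · intro h1
    obtain ⟨a, b, c, d⟩ := h.1 h1
    exact ⟨a, b, d, c⟩
  · rintro ⟨a, b, d, c⟩
    exact h.2 ⟨a, b, c, d⟩

end Pool.Agent.Results.MP_a03157_co.CompleteAnswer
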